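import Pool.Agent.H174.GP.StI

/-!
# GP: Harris inequality for the Gaussian sequence (helper670)
-/

set_option autoImplicit false

open MeasureTheory ProbabilityTheory Finset

namespace Pool.Agent.H670.GP174

open Pool.Agent.H174.GP

theorem gp_gharris (h1 : S_Gmap) (h2 : S_GPP) (h3 : S_harrisN) :
    Pool.Agent.H174.GP.S_gharris := by
  intro I s F hm hd hu
  obtain ⟨G, hG, -, hGm, hGmap⟩ := h1
  have hT : Measurable (fun (ω : ℕ → ℝ) (j : ℕ) => G (ω j)) :=
    measurable_pi_lambda _ fun j => hGm.comp (measurable_pi_apply j)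
  have hmap := h2 G hGm hGmap
  have key : ∀ A : Set (ℕ → ℝ), MeasurableSet A →
      GA.real A = PP.real ((fun (ω : ℕ → ℝ) (j : ℕ) => G (ω j)) ⁻¹' A) := by
    intro A hA
    rw [← hmap, map_measureReal_apply hT hA]
  have hI : MeasurableSet (⋂ i ∈ s, F i) := MeasurableSet.biInter s.countable_toSet hm
  rw [key _ hI, Set.preimage_iInter₂, Finset.prod_congr rfl fun i hi => key (F i) (hm i hi)]
  refine h3 I s (fun i => (fun (ω : ℕ → ℝ) (j : ℕ) => G (ω j)) ⁻¹' F i)
    (fun i hi => hT (hm i hi)) (fun i hi ω ω' hω hF => ?_) (fun i hi ω ω' hω hF => ?_)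
  · exact hd i hi _ _ (fun j hj => by
      show G (ω j) = G (ω' j)
      rw [hω j hj]) hF
  · exact hu i hi (fun j => hG (hω j)) hF

end Pool.Agent.H670.GP174
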